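import Pool.Agent.Y303.EJ.Stm
import Pool.Agent.Y5.O2

/-!
Project EJ, task STG: the stage.
-/

open Set Filter Topology MeasureTheory

set_option autoImplicit false

namespace Pool.Agent.Y297.EJ

open Pool.Agent.Y5 (Pr Pr_cont Pr_deriv Pr_mono mono_of first_time)
open Pool.Agent.Y6.N (src ph)
open Pool.Agent.Y303.EJ

variable {η : ℝ} {lm L C ℓ : ℕ → ℝ} {B : ℕ → ℕ → ℝ} {T : ℝ} {x R V : ℕ → ℝ → ℝ}

lemma Lp (g : Ch η lm L C ℓ B T x R V) (n : ℕ) : 0 < L n := by
  linarith [g.nm.L1 n]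

lemma LRc (g : Ch η lm L C ℓ B T x R V) (n : ℕ) :
    ContinuousOn (fun s => L n * R (n + 1) s) (Ico 0 T) :=
  continuousOn_const.mul (g.cR (n + 1))

lemma Th_mono (g : Ch η lm L C ℓ B T x R V) (n : ℕ) {s t : ℝ} (hs : 0 ≤ s) (hst : s ≤ t)
    (ht : t < T) : Th L R n s ≤ Th L R n t :=
  Pr_mono (LRc g n) ⟨hs, hst.trans_lt ht⟩ ⟨hs.trans hst, ht⟩ hst fun τ hτ =>
    mul_nonneg (Lp g n).le (g.R0 (n + 1) τ ⟨hs.trans hτ.1.le, hτ.2.trans ht⟩)

lemma His_mono (g : Ch η lm L C ℓ B T x R V) {n : ℕ} {s t : ℝ} (hs : 0 ≤ s) (hst : s ≤ t)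
    (ht : t < T) (h : His η lm L R n t) : His η lm L R n s :=
  ⟨(mul_le_mul_of_nonneg_left hst (Lp g 0).le).trans h.time,
    fun i hi => (Th_mono g i hs hst ht).trans (h.old i hi),
    (Th_mono g (n + 1) hs hst ht).trans h.next⟩

lemma absx (g : Ch η lm L C ℓ B T x R V) (n : ℕ) {t : ℝ} (ht : t ∈ Ico 0 T) :
    |x n t| ≤ R n t := by
  apply abs_le_of_sq_le_sq _ (g.R0 n t ht)
  have := g.Rsq n t ht
  nlinarith [sq_nonneg (R (n + 1) t)]

lemma Rle (g : Ch η lm L C ℓ B T x R V) (n : ℕ) {t : ℝ} (ht : t ∈ Ico 0 T) :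
    R (n + 1) t ≤ R n t := by
  rw [← pow_le_pow_iff_left₀ (g.R0 (n + 1) t ht) (g.R0 n t ht) two_ne_zero, g.Rsq n t ht]
  nlinarith [sq_nonneg (x n t)]

lemma Rle1 (g : Ch η lm L C ℓ B T x R V) (n : ℕ) {t : ℝ} (ht : t ∈ Ico 0 T) : R n t ≤ 1 := by
  induction n with
  | zero => exact g.R1 t ht
  | succ n ih => exact (Rle g n ht).trans ih

lemma xle1 (g : Ch η lm L C ℓ B T x R V) (n : ℕ) {t : ℝ} (ht : t ∈ Ico 0 T) : |x n t| ≤ 1 :=
  (absx g n ht).trans (Rle1 g n ht)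

lemma Sgb (g : Ch η lm L C ℓ B T x R V) (n : ℕ) {t : ℝ} (ht : t ∈ Ico 0 T) :
    |Sg L x n t| ≤ L n / 100 := by
  have h1 : |Sg L x n t| ≤ ∑ i ∈ Finset.range n, L i := by
    unfold Sg
    refine (Finset.abs_sum_le_sum_abs _ _).trans (Finset.sum_le_sum fun i _ => ?_)
    rw [abs_mul, abs_of_pos (Lp g i)]
    exact mul_le_of_le_one_right (Lp g i).le (xle1 g i ht)
  refine h1.trans ?_
  cases n with
  | zero =>
    rw [Finset.sum_range_zero]
    have := Lp g 0
    positivity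
  | succ n =>
    have h2 := g.nm.Lsum n
    have h3 := g.nm.Ls n
    have h4 := g.nm.d1 (n + 1)
    have h5 := Lp g (n + 1)
    have h6 := Lp g n
    have h7 : dl η (n + 1) * L (n + 1) ≤ 1 / 100 * L (n + 1) :=
      mul_le_mul_of_nonneg_right h4 h5.le
    nlinarith

lemma e0b (g : Ch η lm L C ℓ B T x R V) (n : ℕ) : 0 ≤ e0 lm ∧ e0 lm ≤ L n / 100 := by
  have h0 : 0 ≤ e0 lm := by
    unfold e0
    positivity
  refine ⟨h0, ?_⟩
  have h1 := g.nm.e1
  have h2 := g.nm.L1 0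
  have h3 := g.nm.lm1 0
  have h4 := g.nm.L1 n
  have h5 : e0 lm * 1 ≤ e0 lm * (L 0 + lm 0) := mul_le_mul_of_nonneg_left (by linarith) h0
  have h6 : (1 : ℝ) / 10 ^ 30 ≤ 1 / 100 := by norm_num
  linarith

lemma small (N : Num η lm L C ℓ) {n k : ℕ} (hk : k ≤ n + 5) :
    Real.exp (-(lm n / 4)) * lm n ≤ dl η k ^ 3 / 10 ^ 20 := by
  have hQ := N.Q1 n
  have hd := N.d0 k
  have h1 := N.Qlm n n (by omega)
  have h2 := N.Qd n k hk
  have h3 := N.Qexp n 5 (-(1 / 4)) 0 (by have := N.d1 n; push_cast; linarith)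
  rw [zero_mul, Real.exp_zero, show -(1 / 4) * lm n = -(lm n / 4) by ring] at h3
  have hlm := N.lm1 n
  set q := Q η lm n
  set E := Real.exp (-(lm n / 4))
  have hE : 0 < E := Real.exp_pos _
  have hq : 0 < q := lt_of_lt_of_le (by norm_num) hQ
  have hlm0 : 0 < lm n := lt_of_lt_of_le (by norm_num) hlm
  rw [le_div_iff₀ (by positivity)]
  have h4 : 1 ≤ q * dl η k := by rwa [div_le_iff₀ hd] at h2
  have h5 : 1 ≤ (q * dl η k) ^ 3 := one_le_pow₀ h4
  have h6 : (10 : ℝ) ^ 20 ≤ q := le_trans (by norm_num) hQ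
  calc E * lm n * 10 ^ 20 ≤ E * q * q := by gcongr
    _ ≤ E * q * q * (q * dl η k) ^ 3 := le_mul_of_one_le_right (by positivity) h5
    _ = (q ^ 5 * E) * dl η k ^ 3 := by ring
    _ ≤ 1 * dl η k ^ 3 := by gcongr
    _ = _ := one_mul _

lemma gzs (g : Ch η lm L C ℓ B T x R V) (n : ℕ) {t : ℝ} (ht : t ∈ Ico 0 T)
    (h : L 0 * t ≤ 3 * lm 0) :
    t * (L n * C n + 2 * ph lm (n + 1)) ≤ dl η (n + 1) ^ 3 / 10 ^ 20 := by
  have N := g.nm
  have hQ := N.Q1 n
  have hd := N.d0 (n + 1)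
  have h1 := N.Qlm n 0 (by omega)
  have h2 := N.Qd n (n + 1) (by omega)
  have h3 := N.Qexp n 7 (-(3 / 2)) 0 (by have := N.d1 n; push_cast; linarith)
  rw [zero_mul, Real.exp_zero, show -(3 / 2) * lm n = -(3 / 2 * lm n) by ring] at h3
  have h4 := N.QL n n (by omega)
  have h5 := N.C1 n
  have h6 := N.C0 n
  have hlm := N.lm1 n
  have h7 : ph lm (n + 1) ≤ Real.exp (-(3 / 2 * lm n)) := by
    refine (N.ph1 n).trans (Real.exp_le_exp.2 ?_)
    have : (0 : ℝ) ≤ lm n := le_trans (by norm_num) hlm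
    nlinarith
  have hL := Lp g n
  set q := Q η lm n
  set F := Real.exp (-(3 / 2 * lm n))
  have hF : 0 < F := Real.exp_pos _
  have hq : 0 < q := lt_of_lt_of_le (by norm_num) hQ
  have ht3 : t ≤ 3 * q := by
    have h8 : 1 * t ≤ L 0 * t := mul_le_mul_of_nonneg_right (N.L1 0) ht.1
    linarith
  have ht0 := ht.1
  rw [le_div_iff₀ (by positivity)]
  have h9 : 1 ≤ q * dl η (n + 1) := by rwa [div_le_iff₀ hd] at h2
  have h10 : 1 ≤ (q * dl η (n + 1)) ^ 3 := one_le_pow₀ h9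
  have h11 : (10 : ℝ) ^ 20 ≤ q := le_trans (by norm_num) hQ
  have hph : 0 ≤ ph lm (n + 1) := (Real.exp_pos _).le
  calc t * (L n * C n + 2 * ph lm (n + 1)) * 10 ^ 20
      ≤ (3 * q) * (q * F + 2 * F) * q := by gcongr
    _ = (3 * (q + 2)) * (q ^ 2 * F) := by ring
    _ ≤ q ^ 2 * (q ^ 2 * F) := by
        apply mul_le_mul_of_nonneg_right _ (by positivity)
        nlinarith
    _ ≤ q ^ 2 * (q ^ 2 * F) * (q * dl η (n + 1)) ^ 3 :=
        le_mul_of_one_le_right (by positivity) h10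
    _ = (q ^ 7 * F) * dl η (n + 1) ^ 3 := by ring
    _ ≤ 1 * dl η (n + 1) ^ 3 := by gcongr
    _ = _ := one_mul _

lemma Cs (N : Num η lm L C ℓ) (n : ℕ) : C n ≤ dl η (n + 1) ^ 3 / 10 ^ 20 := by
  have h1 := N.C1 n
  have h2 := small N (n := n) (k := n + 1) (by omega)
  have hlm := N.lm1 n
  have h0 : (1 : ℝ) ≤ lm n := le_trans (by norm_num) hlm
  have h3 : Real.exp (-(3 / 2 * lm n)) ≤ Real.exp (-(lm n / 4)) :=
    Real.exp_le_exp.2 (by linarith)
  have h4 := Real.exp_pos (-(lm n / 4))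
  nlinarith

lemma phs (N : Num η lm L C ℓ) (n : ℕ) : ph lm (n + 1) ≤ dl η (n + 1) ^ 3 / 10 ^ 20 := by
  have h1 := N.ph1 n
  have h2 := small N (n := n) (k := n + 1) (by omega)
  have hlm := N.lm1 n
  have h0 : (1 : ℝ) ≤ lm n := le_trans (by norm_num) hlm
  have h3 : Real.exp (-(10 ^ 6 * lm n)) ≤ Real.exp (-(lm n / 4)) :=
    Real.exp_le_exp.2 (by linarith)
  have h4 := Real.exp_pos (-(lm n / 4))
  have h5 : Real.exp (-(lm n / 4)) ≤ Real.exp (-(lm n / 4)) * lm n :=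
    le_mul_of_one_le_right h4.le h0
  exact h1.trans (h3.trans (h5.trans h2))

lemma dl4 (N : Num η lm L C ℓ) (n : ℕ) : dl η n ^ 4 ≤ 1 :=
  pow_le_one₀ (N.d0 n).le ((N.d1 n).trans (by norm_num))

lemma lm_far (g : Ch η lm L C ℓ B T x R V) (n j : ℕ) :
    4 * (lm (n + 1) + (j + 1)) ≤ lm (n + 2 + j) := by
  have key : ∀ m, 10 ^ 8 * lm m ≤ lm (m + 1) := by
    intro m
    have h1 := g.sq.lm_grow m
    have h2 := dl4 g.nm (m + 1)
    have h3 : (0 : ℝ) ≤ lm (m + 1) := le_trans (by norm_num) (g.nm.lm1 (m + 1))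
    nlinarith
  induction j with
  | zero =>
    have h1 := key (n + 1)
    have h2 := g.nm.lm1 (n + 1)
    have h3 : (10 : ℝ) ^ 30 ≤ lm (n + 1) := h2
    have h4 : (1 : ℝ) ≤ lm (n + 1) := le_trans (by norm_num) h2
    show 4 * (lm (n + 1) + ((0 : ℕ) + 1)) ≤ lm (n + 1 + 1)
    push_cast
    linarith
  | succ j ih =>
    have h1 := key (n + 2 + j)
    have h2 := g.nm.lm1 (n + 1)
    have h4 : (1 : ℝ) ≤ lm (n + 1) := le_trans (by norm_num) h2
    have h5 : (0 : ℝ) ≤ j := Nat.cast_nonneg j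
    rw [show n + 2 + (j + 1) = n + 2 + j + 1 by ring]
    push_cast
    linarith

lemma V3 (g : Ch η lm L C ℓ B T x R V) (hF : FAR η lm L T R) (n : ℕ) {t : ℝ}
    (ht : t ∈ Ico 0 T) (hH : His η lm L R n t) : V (n + 3) t ≤ Real.exp (-lm (n + 1)) := by
  have N := g.nm
  refine (g.Vb (n + 3) t ht (fun j => Real.exp (-lm (n + 1)) * (1 / 2 * (1 / 2) ^ j)) ?_ ?_).trans
    ?_
  · intro j
    have h1 := (hF n t ht hH (n + 2 + j) (by omega)).1
    rw [show n + 2 + j + 1 = n + 3 + j by ring] at h1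
    have h2 := absx g (n + 3 + j) ht
    have h3 : x (n + 3 + j) t ^ 2 ≤ Real.exp (-lm (n + 2 + j)) := by
      have h4 : |x (n + 3 + j) t| ^ 2 ≤ Real.exp (-(lm (n + 2 + j) / 2)) ^ 2 :=
        pow_le_pow_left₀ (abs_nonneg _) (h2.trans h1) 2
      rw [sq_abs, ← Real.exp_nat_mul] at h4
      refine h4.trans (le_of_eq ?_)
      congr 1
      push_cast
      ring
    have h4 : ℓ (n + 3 + j) ≤ Q η lm (n + 2 + j) := by
      have h5 := g.sq.ℓ_succ (n + 2 + j)
      rw [show n + 2 + j + 1 = n + 3 + j by ring] at h5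
      have h6 := dl4 N (n + 3 + j)
      have h7 := N.QL (n + 2 + j) (n + 2 + j) (by omega)
      have h8 := g.sq.ℓ_nonneg (n + 3 + j)
      have h9 := Lp g (n + 2 + j)
      nlinarith
    have h5 := N.Qexp (n + 2 + j) 1 (-1) (-(1 / 2)) (by
      have := N.d1 (n + 2 + j)
      push_cast
      linarith)
    rw [pow_one, show -1 * lm (n + 2 + j) = -lm (n + 2 + j) by ring] at h5
    have h6 := lm_far g n j
    have h7 : Real.exp (-(1 / 2) * lm (n + 2 + j)) ≤
        Real.exp (-lm (n + 1)) * (1 / 2 * (1 / 2) ^ j) := by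
      have h8 : Real.exp (-1) ≤ 1 / 2 := by
        have := Real.exp_neg_one_lt_d9
        linarith
      have h9 : Real.exp (-((j : ℝ) + 1)) ≤ 1 / 2 * (1 / 2) ^ j := by
        have h10 : Real.exp (-((j : ℝ) + 1)) = Real.exp (-1) ^ (j + 1) := by
          rw [← Real.exp_nat_mul]
          congr 1
          push_cast
          ring
        rw [h10, ← pow_succ']
        exact pow_le_pow_left₀ (Real.exp_pos _).le h8 _
      calc Real.exp (-(1 / 2) * lm (n + 2 + j))
          ≤ Real.exp (-lm (n + 1) + -((j : ℝ) + 1)) := Real.exp_le_exp.2 (by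
            have h2 := g.nm.lm1 (n + 1)
            have h4 : (1 : ℝ) ≤ lm (n + 1) := le_trans (by norm_num) h2
            have h5 : (0 : ℝ) ≤ j := Nat.cast_nonneg j
            linarith)
        _ = Real.exp (-lm (n + 1)) * Real.exp (-((j : ℝ) + 1)) := Real.exp_add _ _
        _ ≤ _ := mul_le_mul_of_nonneg_left h9 (Real.exp_pos _).le
    calc ℓ (n + 3 + j) * x (n + 3 + j) t ^ 2
        ≤ Q η lm (n + 2 + j) * Real.exp (-lm (n + 2 + j)) :=
          mul_le_mul h4 h3 (sq_nonneg _) (Real.exp_pos _).le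
      _ ≤ _ := h5.trans h7
  · exact (summable_geometric_two.mul_left _).mul_left _
  · rw [tsum_mul_left, tsum_mul_left, tsum_geometric_two]
    apply le_of_eq
    ring

lemma R2s (g : Ch η lm L C ℓ B T x R V) (hU : UPA η lm L T R) {n : ℕ} {t : ℝ}
    (ht : t ∈ Ico 0 T) (hH : His η lm L R n t) (hTh : Th L R n t ≤ 3 / 4) :
    R (n + 2) t ≤ Real.exp (-(lm (n + 1) / 2)) := by
  refine (hU.2 n t ht hH.time fun i hi => hH.old i hi.le).trans (Real.exp_le_exp.2 ?_)
  have h1 := Real.pi_gt_d2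
  have h2 := g.nm.d1 (n + 1)
  have h3 : (0 : ℝ) ≤ lm (n + 1) := le_trans (by norm_num) (g.nm.lm1 (n + 1))
  nlinarith

lemma R2t (g : Ch η lm L C ℓ B T x R V) (hU : UPA η lm L T R) {n : ℕ} {t : ℝ}
    (ht : t ∈ Ico 0 T) (hH : His η lm L R n t) (hTh : Th L R n t ≤ 3 / 4) :
    lm (n + 1) * R (n + 2) t ^ 2 ≤ dl η (n + 1) ^ 3 / 10 ^ 20 := by
  have h1 := R2s g hU ht hH hTh
  have h2 := small g.nm (n := n + 1) (k := n + 1) (by omega)
  have h3 : (0 : ℝ) ≤ lm (n + 1) := le_trans (by norm_num) (g.nm.lm1 (n + 1))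
  have h4 : R (n + 2) t ^ 2 ≤ Real.exp (-(lm (n + 1) / 4)) := by
    have h5 : R (n + 2) t ^ 2 ≤ Real.exp (-(lm (n + 1) / 2)) ^ 2 :=
      pow_le_pow_left₀ (g.R0 (n + 2) t ht) h1 2
    refine h5.trans ?_
    rw [← Real.exp_nat_mul]
    apply Real.exp_le_exp.2
    push_cast
    linarith
  calc lm (n + 1) * R (n + 2) t ^ 2 ≤ lm (n + 1) * Real.exp (-(lm (n + 1) / 4)) :=
        mul_le_mul_of_nonneg_left h4 h3
    _ = Real.exp (-(lm (n + 1) / 4)) * lm (n + 1) := mul_comm _ _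
    _ ≤ _ := h2

lemma Vb1 (g : Ch η lm L C ℓ B T x R V) (hU : UPA η lm L T R) (hF : FAR η lm L T R) {n : ℕ}
    {t : ℝ} (ht : t ∈ Ico 0 T) (hH : His η lm L R n t) (hTh : Th L R n t ≤ 3 / 4)
    (hR : dl η (n + 1) / 10 ^ 4 ≤ R (n + 1) t) : V (n + 1) t ≤ L n * R (n + 1) t ^ 2 / 1000 := by
  have N := g.nm
  have hd := N.d0 (n + 1)
  have hd1 := N.d1 (n + 1)
  have hL := Lp g n
  have hL1 := N.L1 n
  have hlm : (1 : ℝ) ≤ lm (n + 1) := le_trans (by norm_num) (N.lm1 (n + 1))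
  have e1 : V (n + 1) t = ℓ (n + 1) * x (n + 1) t ^ 2 + V (n + 2) t := g.Vs (n + 1) t ht
  have e2 : V (n + 2) t = ℓ (n + 2) * x (n + 2) t ^ 2 + V (n + 3) t := g.Vs (n + 2) t ht
  have s1 : ℓ (n + 1) * x (n + 1) t ^ 2 ≤ L n / 10 ^ 6 * R (n + 1) t ^ 2 := by
    have h1 : ℓ (n + 1) ≤ L n / 10 ^ 6 := by
      have h5 := g.sq.ℓ_succ n
      have h6 := dl4 N (n + 1)
      rw [le_div_iff₀ (by norm_num)]
      nlinarith
    have h2 : x (n + 1) t ^ 2 ≤ R (n + 1) t ^ 2 := by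
      rw [← sq_abs]
      exact pow_le_pow_left₀ (abs_nonneg _) (absx g (n + 1) ht) 2
    exact mul_le_mul h1 h2 (sq_nonneg _) (by positivity)
  have hD3 : 0 < dl η (n + 1) ^ 3 / 10 ^ 20 := by positivity
  have s2 : ℓ (n + 2) * x (n + 2) t ^ 2 ≤ L n * (dl η (n + 1) ^ 3 / 10 ^ 20) := by
    have h1 : ℓ (n + 2) ≤ L (n + 1) := by
      have h5 := g.sq.ℓ_succ (n + 1)
      have h6 := dl4 N (n + 2)
      have h7 := Lp g (n + 1)
      have h8 := g.sq.ℓ_nonneg (n + 2)
      have h9 : (10 : ℝ) ^ 6 * ℓ (n + 2) ≤ dl η (n + 2) ^ 4 * L (n + 1) := h5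
      nlinarith
    have h2 : x (n + 2) t ^ 2 ≤ R (n + 2) t ^ 2 := by
      rw [← sq_abs]
      exact pow_le_pow_left₀ (abs_nonneg _) (absx g (n + 2) ht) 2
    have h3 := g.sq.lm_succ n
    have h4 := R2t g hU ht hH hTh
    calc ℓ (n + 2) * x (n + 2) t ^ 2 ≤ L (n + 1) * R (n + 2) t ^ 2 :=
          mul_le_mul h1 h2 (sq_nonneg _) (Lp g (n + 1)).le
      _ = L n * (lm (n + 1) * R (n + 2) t ^ 2) := by rw [← h3]; ring
      _ ≤ _ := mul_le_mul_of_nonneg_left h4 hL.le
  have s3 : V (n + 3) t ≤ L n * (dl η (n + 1) ^ 3 / 10 ^ 20) := by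
    have h1 := V3 g hF n ht hH
    have h2 := small N (n := n + 1) (k := n + 1) (by omega)
    have h3 : Real.exp (-lm (n + 1)) ≤ Real.exp (-(lm (n + 1) / 4)) :=
      Real.exp_le_exp.2 (by linarith)
    have h4 := Real.exp_pos (-(lm (n + 1) / 4))
    have h5 : Real.exp (-(lm (n + 1) / 4)) ≤ Real.exp (-(lm (n + 1) / 4)) * lm (n + 1) :=
      le_mul_of_one_le_right h4.le hlm
    have h6 : dl η (n + 1) ^ 3 / 10 ^ 20 ≤ L n * (dl η (n + 1) ^ 3 / 10 ^ 20) :=
      le_mul_of_one_le_left hD3.le hL1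
    linarith
  have s4 : dl η (n + 1) ^ 3 / 10 ^ 20 ≤ R (n + 1) t ^ 2 / 10 ^ 4 := by
    have h1 : (dl η (n + 1) / 10 ^ 4) ^ 2 ≤ R (n + 1) t ^ 2 :=
      pow_le_pow_left₀ (by positivity) hR 2
    have h2 : dl η (n + 1) ^ 3 / 10 ^ 20 ≤ (dl η (n + 1) / 10 ^ 4) ^ 2 / 10 ^ 4 := by
      have : dl η (n + 1) ^ 3 / 10 ^ 20 =
        (dl η (n + 1) / 10 ^ 8) * ((dl η (n + 1) / 10 ^ 4) ^ 2 / 10 ^ 4) := by ring
      rw [this]
      apply mul_le_of_le_one_left (by positivity)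
      rw [div_le_one (by norm_num)]
      linarith
    exact h2.trans (by gcongr)
  have s5 : L n * (dl η (n + 1) ^ 3 / 10 ^ 20) ≤ L n * (R (n + 1) t ^ 2 / 10 ^ 4) :=
    mul_le_mul_of_nonneg_left s4 hL.le
  have s6 : 0 ≤ L n * R (n + 1) t ^ 2 := by positivity
  rw [e1, e2]
  have e3 : L n / 10 ^ 6 * R (n + 1) t ^ 2 = L n * R (n + 1) t ^ 2 / 10 ^ 6 := by ring
  have e4 : L n * (R (n + 1) t ^ 2 / 10 ^ 4) = L n * R (n + 1) t ^ 2 / 10 ^ 4 := by ring
  rw [e3] at s1
  rw [e4] at s5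
  linarith

lemma der_ge (g : Ch η lm L C ℓ B T x R V) (hU : UPA η lm L T R) (hF : FAR η lm L T R) {n : ℕ}
    {t : ℝ} (ht : t ∈ Ioo 0 T) (hH : His η lm L R n t) (hTh : Th L R n t ≤ 3 / 4)
    (hR : dl η (n + 1) / 10 ^ 4 ≤ R (n + 1) t) (hx : 6 / 10 ≤ x n t) :
    ∃ D, HasDerivAt (fun s => R (n + 1) s ^ 2) D t ∧ L n * R (n + 1) t ^ 2 ≤ D := by
  obtain ⟨D, hD, hD'⟩ := g.dR (n + 1) t ht
  refine ⟨D, hD, ?_⟩
  have ht' : t ∈ Ico 0 T := ⟨ht.1.le, ht.2⟩
  have N := g.nm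
  have hd := N.d0 (n + 1)
  have hd1 := N.d1 (n + 1)
  have hL := Lp g n
  have hL1 := N.L1 n
  have hr0 : 0 < R (n + 1) t := lt_of_lt_of_le (by positivity) hR
  have hSg : Sg L x (n + 1) t = Sg L x n t + L n * x n t := Finset.sum_range_succ _ _
  have hSgb := Sgb g n ht'
  obtain ⟨he0, he1⟩ := e0b g n
  have hV := Vb1 g hU hF ht' hH hTh hR
  have hd3 : dl η (n + 1) ^ 3 / 10 ^ 20 ≤ R (n + 1) t / 1000 := by
    have h1 : dl η (n + 1) ^ 3 / 10 ^ 20 =
        (dl η (n + 1) ^ 2 / 10 ^ 13) * (dl η (n + 1) / 10 ^ 4 / 1000) := by ring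
    have h2 : dl η (n + 1) ^ 2 / 10 ^ 13 ≤ 1 := by
      rw [div_le_one (by norm_num)]
      nlinarith
    calc dl η (n + 1) ^ 3 / 10 ^ 20 ≤ dl η (n + 1) / 10 ^ 4 / 1000 := by
          rw [h1]
          exact mul_le_of_le_one_left (by positivity) h2
      _ ≤ _ := by gcongr
  have hsrc : src L C x (n + 1) t = L n * C n * x n t ^ 2 := by
    unfold src
    simp
  have hx2 : x n t ^ 2 ≤ 1 := by
    rw [← sq_abs]
    exact pow_le_one₀ (abs_nonneg _) (xle1 g n ht')
  have hC0 := N.C0 n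
  have hC := (Cs N n).trans hd3
  have hsrcb : |src L C x (n + 1) t * x (n + 1) t| ≤ L n * R (n + 1) t ^ 2 / 1000 := by
    rw [hsrc, abs_mul, abs_of_nonneg (by positivity)]
    calc L n * C n * x n t ^ 2 * |x (n + 1) t|
        ≤ L n * (R (n + 1) t / 1000) * 1 * R (n + 1) t := by
          have := absx g (n + 1) ht'
          gcongr
      _ = _ := by ring
  have hph : 4 * ph lm (n + 1) * R (n + 1) t ≤ 4 * (L n * R (n + 1) t ^ 2 / 1000) := by
    have h1 := (phs N n).trans hd3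
    have h2 : R (n + 1) t / 1000 ≤ L n * (R (n + 1) t / 1000) :=
      le_mul_of_one_le_left (by positivity) hL1
    calc 4 * ph lm (n + 1) * R (n + 1) t ≤ 4 * (L n * (R (n + 1) t / 1000)) * R (n + 1) t := by
          have := h1.trans h2
          gcongr
      _ = _ := by ring
  have h1 := (abs_le.1 hD').1
  have h2 := (abs_le.1 hsrcb).1
  have h3 := (abs_le.1 hSgb).1
  have h4 : (59 / 100 * L n) * R (n + 1) t ^ 2 ≤ Sg L x (n + 1) t * R (n + 1) t ^ 2 := by
    apply mul_le_mul_of_nonneg_right _ (sq_nonneg _)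
    rw [hSg]
    nlinarith
  have h5 : e0 lm * R (n + 1) t ^ 2 ≤ L n / 100 * R (n + 1) t ^ 2 :=
    mul_le_mul_of_nonneg_right he1 (sq_nonneg _)
  have h6 : 0 ≤ L n * R (n + 1) t ^ 2 := by positivity
  nlinarith

/-- exponential growth while the clock is at most `3 / 4` -/
lemma grow1 (g : Ch η lm L C ℓ B T x R V) (hU : UPA η lm L T R) (hF : FAR η lm L T R) {n : ℕ}
    {a t : ℝ} (ha : 0 ≤ a) (hat : a ≤ t) (ht : t < T)
    (h : ∀ s ∈ Ioo a t, His η lm L R n s ∧ Th L R n s ≤ 3 / 4 ∧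
      dl η (n + 1) / 10 ^ 4 ≤ R (n + 1) s ∧ 6 / 10 ≤ x n s) :
    R (n + 1) a ^ 2 * Real.exp (L n * (t - a)) ≤ R (n + 1) t ^ 2 := by
  have hsub : Icc a t ⊆ Ico 0 T := fun s hs => ⟨ha.trans hs.1, hs.2.trans_lt ht⟩
  have hex : ∀ s, ∃ D, s ∈ Ioo a t → HasDerivAt (fun s => R (n + 1) s ^ 2) D s ∧
      L n * R (n + 1) s ^ 2 ≤ D := by
    intro s
    by_cases hs : s ∈ Ioo a t
    · obtain ⟨h1, h2, h3, h4⟩ := h s hs
      obtain ⟨D, hD⟩ := der_ge g hU hF ⟨ha.trans_lt hs.1, hs.2.trans ht⟩ h1 h2 h3 h4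
      exact ⟨D, fun _ => hD⟩
    · exact ⟨0, fun h => absurd h hs⟩
  choose D hD using hex
  have hmono := mono_of (f := fun s => Real.exp (-(L n * (s - a))) * R (n + 1) s ^ 2)
    (f' := fun s => Real.exp (-(L n * (s - a))) * (-(L n)) * R (n + 1) s ^ 2 +
      Real.exp (-(L n * (s - a))) * D s) hat
    (by
      refine ContinuousOn.mul (by fun_prop) ?_
      exact ((g.cR (n + 1)).mono hsub).pow 2)
    (fun s hs => by
      have e2 : HasDerivAt (fun s => Real.exp (-(L n * (s - a))))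
          (Real.exp (-(L n * (s - a))) * (-(L n))) s := by
        have := (((hasDerivAt_id s).sub_const a).const_mul (L n)).neg.exp
        simpa using this
      exact e2.mul (hD s hs).1)
    (fun s hs => by
      have h1 := (hD s hs).2
      have h2 := Real.exp_pos (-(L n * (s - a)))
      have h3 := mul_le_mul_of_nonneg_left h1 h2.le
      nlinarith)
  simp only [sub_self, mul_zero, neg_zero, Real.exp_zero, one_mul] at hmono
  calc R (n + 1) a ^ 2 * Real.exp (L n * (t - a))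
      ≤ (Real.exp (-(L n * (t - a))) * R (n + 1) t ^ 2) * Real.exp (L n * (t - a)) :=
        mul_le_mul_of_nonneg_right hmono (Real.exp_pos _).le
    _ = R (n + 1) t ^ 2 * (Real.exp (-(L n * (t - a))) * Real.exp (L n * (t - a))) := by ring
    _ = R (n + 1) t ^ 2 := by rw [← Real.exp_add]; simp

lemma expW {d : ℝ} (hd : 0 < d) (hd1 : d ≤ 1 / 400) :
    (4000 / d) ^ 2 ≤ Real.exp (1 / (2 * d) - 5 / 2) := by
  obtain ⟨y, hy⟩ : ∃ y, y = 1 / d := ⟨_, rfl⟩
  have hy400 : 400 ≤ y := by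
    rw [hy, le_div_iff₀ hd]
    linarith
  have e1 : 4000 / d = 4000 * y := by
    rw [hy]
    ring
  have e2 : 1 / (2 * d) - 5 / 2 = ((2 : ℕ) : ℝ) * (y / 4 - 5 / 4) := by
    rw [hy]
    push_cast
    field_simp
    ring
  rw [e1, e2, Real.exp_nat_mul]
  apply pow_le_pow_left₀ (by positivity)
  have e3 : y / 4 - 5 / 4 = ((8 : ℕ) : ℝ) * (y / 32 - 5 / 32) := by
    push_cast
    ring
  rw [e3, Real.exp_nat_mul]
  have h1 : y / 32 ≤ Real.exp (y / 32 - 5 / 32) := by
    have := Real.add_one_le_exp (y / 32 - 5 / 32)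
    linarith
  have h2 : (y / 32) ^ 8 ≤ Real.exp (y / 32 - 5 / 32) ^ 8 :=
    pow_le_pow_left₀ (by positivity) h1 8
  refine le_trans ?_ h2
  have h3 : (12 : ℝ) ^ 7 ≤ (y / 32) ^ 7 := pow_le_pow_left₀ (by norm_num) (by linarith) 7
  calc 4000 * y ≤ (y / 32) * 12 ^ 7 := by
        norm_num
        linarith
    _ ≤ (y / 32) * (y / 32) ^ 7 := mul_le_mul_of_nonneg_left h3 (by positivity)
    _ = (y / 32) ^ 8 := by ring

lemma sin_lb {θ d : ℝ} (h1 : 3 / 4 ≤ θ) (h2 : θ ≤ Real.pi / 2 + d) (hd : d ≤ 1 / 100)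
    (hd0 : 0 ≤ d) : 6 / 10 ≤ Real.sin θ := by
  by_cases h : θ ≤ Real.pi / 2
  · have h3 : Real.sin (3 / 4) ≤ Real.sin θ :=
      Real.sin_le_sin_of_le_of_le_pi_div_two (by have := Real.pi_pos; linarith) h h1
    have h4 := Real.sin_gt_sub_cube (x := 3 / 4) (by norm_num)
    norm_num at h4
    linarith
  · push Not at h
    have h3 : Real.sin θ = Real.cos (θ - Real.pi / 2) := by
      rw [Real.cos_sub_pi_div_two]
    rw [h3]
    have h4 := Real.one_sub_sq_div_two_le_cos (x := θ - Real.pi / 2)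
    nlinarith

lemma cos_lb {θ : ℝ} (h0 : 0 ≤ θ) (h1 : θ ≤ 3 / 4) : 7 / 10 ≤ Real.cos θ := by
  have h4 := Real.one_sub_sq_div_two_le_cos (x := θ)
  nlinarith

/-- the stage with a bound for its length -/
theorem stg0 (g : Ch η lm L C ℓ B T x R V) (hGZ : GZ lm L C T R) (hU : UPA η lm L T R)
    (hF : FAR η lm L T R) (hROT : ROT η lm L T x R) (n : ℕ) (a b : ℝ) (ha : 0 ≤ a) (hab : a ≤ b)
    (hbT : b < T) (h1 : L 0 * a ≤ 29 / 10 * lm 0) (h2 : ∀ i < n, Th L R i b ≤ 2)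
    (h3 : Th L R n b ≤ Real.pi / 2 + dl η (n + 1)) (h4 : Th L R (n + 1) b ≤ cn η (n + 1))
    (h5 : Th L R n a = cn η n) (h6 : 95 / 100 ≤ x n a) (h7 : cn η n / 4 ≤ x (n + 1) a)
    (hH : b - a ≤ 1 / (dl η (n + 1) * L n)) :
    His η lm L R n b ∧ b - a ≤ 1 / (2 * (dl η (n + 1) * L n)) ∧
    |x n b - x n a * Real.cos (Th L R n b)| ≤ 10 * cn η n ∧
    |R (n + 1) b - x n a * Real.sin (Th L R n b)| ≤ 10 * cn η n ∧
    cn η n / 10 ≤ R (n + 1) b ∧
    (1 - dl η (n + 1) / 100) * R (n + 1) b ≤ x (n + 1) b := by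
  have N := g.nm
  have hL := Lp g n
  have hL1 := N.L1 n
  have hd := N.d0 (n + 1)
  have hd4 : dl η (n + 1) ≤ 1 / 400 := by
    have := N.ds n
    have := N.d1 n
    linarith
  have hlm0 := N.lm1 0
  have haI : a ∈ Ico 0 T := ⟨ha, hab.trans_lt hbT⟩
  have hbI : b ∈ Ico 0 T := ⟨ha.trans hab, hbT⟩
  have hsub : Icc a b ⊆ Ico 0 T := fun s hs => ⟨ha.trans hs.1, hs.2.trans_lt hbT⟩
  have hcd : cn η n = dl η (n + 1) / 1000 := rfl
  have hc10 : cn η n / 10 = dl η (n + 1) / 10 ^ 4 := by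
    rw [hcd]
    ring
  have hcd' : cn η (n + 1) = dl η (n + 1) / 4000 := by
    have : cn η (n + 1) = dl η (n + 1 + 1) / 1000 := rfl
    rw [this, N.ds (n + 1)]
    ring
  -- standard assumptions
  have hHis : His η lm L R n b := by
    refine ⟨?_, ?_, ?_⟩
    · have h8 : L 0 * (b - a) ≤ 1 / 10 * lm 0 := by
        have h9 : L 0 * (b - a) ≤ L 0 * (1 / (dl η (n + 1) * L n)) :=
          mul_le_mul_of_nonneg_left hH (Lp g 0).le
        refine h9.trans ?_
        rw [mul_one_div, div_le_iff₀ (by positivity)]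
        rcases n with _ | m
        · have h10 := N.lmd 0
          have h11 := N.ds 0
          have h12 : (10 : ℝ) ^ 30 ≤ 4 * dl η (0 + 1) * lm 0 := by
            rw [h11]
            linarith
          have h13 : 1 ≤ 1 / 10 * lm 0 * dl η (0 + 1) := by
            have : (10 : ℝ) ^ 30 / 40 ≤ 1 / 10 * lm 0 * dl η (0 + 1) := by linarith
            exact le_trans (by norm_num) this
          calc L 0 = 1 * L 0 := (one_mul _).symm
            _ ≤ (1 / 10 * lm 0 * dl η (0 + 1)) * L 0 :=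
              mul_le_mul_of_nonneg_right h13 (Lp g 0).le
            _ = _ := by ring
        · have h10 := N.Ls m
          have h11 := N.ds (m + 1)
          have h12 : L 0 ≤ L m := N.Lmono (Nat.zero_le m)
          have h13 := Lp g 0
          have h14 : L 0 ≤ dl η (m + 1 + 1) * L (m + 1) := by
            rw [h11]
            nlinarith
          have h15 : 1 ≤ 1 / 10 * lm 0 := by
            have : (10 : ℝ) ^ 30 / 10 ≤ 1 / 10 * lm 0 := by linarith
            exact le_trans (by norm_num) this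
          exact h14.trans (le_mul_of_one_le_left (by
            have := N.d0 (m + 1 + 1)
            have := Lp g (m + 1)
            positivity) h15)
      linarith
    · intro i hi
      rcases Nat.lt_or_ge i n with h | h
      · exact h2 i h
      · have : i = n := le_antisymm hi h
        subst this
        have := Real.pi_lt_d2
        linarith
    · linarith
  have hHt : ∀ t, a ≤ t → t ≤ b → His η lm L R n t := fun t hat htb =>
    His_mono g (ha.trans hat) htb hbT hHis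
  have hR3 : R (n + 1) a ≤ 3 * cn η n := by
    have h8 := hGZ n a haI
    have h9 := gzs g n haI (by linarith)
    have h10 : dl η (n + 1) ^ 3 / 10 ^ 20 ≤ cn η n := by
      rw [hcd]
      have e : dl η (n + 1) ^ 3 / 10 ^ 20 =
        (dl η (n + 1) ^ 2 / 10 ^ 17) * (dl η (n + 1) / 1000) := by ring
      rw [e]
      apply mul_le_of_le_one_left (by positivity)
      rw [div_le_one (by norm_num)]
      nlinarith
    linarith
  -- rotation
  have rot : ∀ t, a ≤ t → t ≤ b → (∀ s ∈ Icc a t, cn η n / 10 ≤ R (n + 1) s) →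
      |x n t - x n a * Real.cos (Th L R n t)| ≤ 10 * cn η n ∧
      |R (n + 1) t - x n a * Real.sin (Th L R n t)| ≤ 10 * cn η n := fun t hat htb hs =>
    hROT n a t ha hat (htb.trans_lt hbT) (hHt t hat htb) (by linarith) hs hR3 h5 (by linarith)
  have hThm : ∀ t, a ≤ t → cn η n ≤ Th L R n t ∨ T ≤ t := fun t hat => by
    rcases lt_or_ge t T with h | h
    · left
      rw [← h5]
      exact Th_mono g n ha hat h
    · exact Or.inr h
  have hTh0 : ∀ t, a ≤ t → t ≤ b → 0 ≤ Th L R n t := fun t hat htb => by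
    rcases hThm t hat with h | h
    · rw [hcd] at h
      exact le_trans (by positivity) h
    · linarith
  have phase1 : ∀ t, a ≤ t → t ≤ b → (∀ s ∈ Icc a t, cn η n / 10 ≤ R (n + 1) s) →
      Th L R n t ≤ 3 / 4 → R (n + 1) a ^ 2 * Real.exp (L n * (t - a)) ≤ R (n + 1) t ^ 2 := by
    intro t hat htb hs hTh
    refine grow1 g hU hF ha hat (htb.trans_lt hbT) fun s hss => ?_
    have hsb : s ≤ b := hss.2.le.trans htb
    have hThs : Th L R n s ≤ 3 / 4 :=
      (Th_mono g n (ha.trans hss.1.le) hss.2.le (htb.trans_lt hbT)).trans hTh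
    refine ⟨hHt s hss.1.le hsb, hThs, ?_, ?_⟩
    · rw [← hc10]
      exact hs s ⟨hss.1.le, hss.2.le⟩
    · have h8 := (rot s hss.1.le hsb fun τ hτ => hs τ ⟨hτ.1, hτ.2.trans hss.2.le⟩).1
      have h9 := (abs_le.1 h8).1
      have h10 := cos_lb (hTh0 s hss.1.le hsb) hThs
      rw [hcd] at h9
      nlinarith
  have phase2 : ∀ t, a ≤ t → t ≤ b → (∀ s ∈ Icc a t, cn η n / 10 ≤ R (n + 1) s) →
      3 / 4 ≤ Th L R n t → 1 / 2 ≤ R (n + 1) t := by
    intro t hat htb hs hTh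
    have h8 := (rot t hat htb hs).2
    have h9 := (abs_le.1 h8).1
    have h10 := sin_lb hTh ((Th_mono g n (ha.trans hat) htb hbT).trans h3) (by linarith) hd.le
    rw [hcd] at h9
    nlinarith
  have hRa : cn η n / 4 ≤ R (n + 1) a := h7.trans ((le_abs_self _).trans (absx g (n + 1) haI))
  have hcpos : 0 < cn η n := by
    rw [hcd]
    positivity
  have hR : ∀ t ∈ Icc a b, cn η n / 10 ≤ R (n + 1) t := by
    have hcont : ContinuousOn (fun t => cn η n / 10 - R (n + 1) t) (Ico a T) :=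
      continuousOn_const.sub ((g.cR (n + 1)).mono (Ico_subset_Ico_left ha))
    rcases first_time hcont (by show cn η n / 10 - R (n + 1) a < 0; linarith) with
      hf | ⟨t₁, ht₁, he, hlt⟩
    · intro t ht
      have := hf t ⟨ht.1, ht.2.trans_lt hbT⟩
      linarith
    · intro t ht
      rcases lt_or_ge t t₁ with htt | htt
      · have := hlt t ⟨ht.1, htt⟩
        linarith
      · exfalso
        have ht₁b : t₁ ≤ b := htt.trans ht.2
        have hs : ∀ s ∈ Icc a t₁, cn η n / 10 ≤ R (n + 1) s := by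
          intro s hs
          rcases hs.2.lt_or_eq with hst | hst
          · have := hlt s ⟨hs.1, hst⟩
            linarith
          · rw [hst]
            linarith
        have hR₁ : R (n + 1) t₁ = cn η n / 10 := by
          linarith
        rcases le_total (Th L R n t₁) (3 / 4) with hT | hT
        · have h8 := phase1 t₁ ht₁.1.le ht₁b hs hT
          rw [hR₁] at h8
          have h9 : 1 ≤ Real.exp (L n * (t₁ - a)) := by
            apply Real.one_le_exp
            have := ht₁.1.le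
            have : 0 ≤ t₁ - a := by linarith
            positivity
          have h10 : (cn η n / 4) ^ 2 ≤ R (n + 1) a ^ 2 :=
            pow_le_pow_left₀ (by positivity) hRa 2
          have h11 : R (n + 1) a ^ 2 ≤ R (n + 1) a ^ 2 * Real.exp (L n * (t₁ - a)) :=
            le_mul_of_one_le_right (sq_nonneg _) h9
          nlinarith
        · have h8 := phase2 t₁ ht₁.1.le ht₁b hs hT
          rw [hR₁, hcd] at h8
          linarith
  have hRt : ∀ t, t ≤ b → ∀ s ∈ Icc a t, cn η n / 10 ≤ R (n + 1) s := fun t htb s hs =>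
    hR s ⟨hs.1, hs.2.trans htb⟩
  -- the length
  have len1 : ∀ t, a ≤ t → t ≤ b → Th L R n t ≤ 3 / 4 →
      L n * (t - a) ≤ 1 / (2 * dl η (n + 1)) - 5 / 2 := by
    intro t hat htb hTh
    by_contra hcon
    push Not at hcon
    have h8 := phase1 t hat htb (hRt t htb) hTh
    have h9 : R (n + 1) t ^ 2 ≤ 1 :=
      pow_le_one₀ (g.R0 (n + 1) t (hsub ⟨hat, htb⟩)) (Rle1 g (n + 1) (hsub ⟨hat, htb⟩))
    have h10 : (cn η n / 4) ^ 2 ≤ R (n + 1) a ^ 2 :=
      pow_le_pow_left₀ (by positivity) hRa 2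
    have h11 := expW hd hd4
    have h12 : Real.exp (1 / (2 * dl η (n + 1)) - 5 / 2) < Real.exp (L n * (t - a)) :=
      Real.exp_lt_exp.2 hcon
    have h13 : (cn η n / 4) ^ 2 * (4000 / dl η (n + 1)) ^ 2 = 1 := by
      rw [hcd]
      field_simp
      norm_num
    have h14 : (cn η n / 4) ^ 2 * (4000 / dl η (n + 1)) ^ 2 <
        R (n + 1) a ^ 2 * Real.exp (L n * (t - a)) := by
      have h15 : (0 : ℝ) < (cn η n / 4) ^ 2 := by positivity
      calc (cn η n / 4) ^ 2 * (4000 / dl η (n + 1)) ^ 2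
          < (cn η n / 4) ^ 2 * Real.exp (L n * (t - a)) :=
            mul_lt_mul_of_pos_left (lt_of_le_of_lt h11 h12) h15
        _ ≤ _ := mul_le_mul_of_nonneg_right h10 (Real.exp_pos _).le
    linarith
  have len : L n * (b - a) ≤ 1 / (2 * dl η (n + 1)) := by
    rcases le_total (Th L R n b) (3 / 4) with hT | hT
    · have := len1 b hab le_rfl hT
      linarith
    · have hThc : ContinuousOn (fun t => Th L R n t) (Icc a b) := (Pr_cont (LRc g n)).mono hsub
      have hmem : (3 / 4 : ℝ) ∈ Icc (Th L R n a) (Th L R n b) := by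
        refine ⟨?_, hT⟩
        rw [h5, hcd]
        linarith
      obtain ⟨t, ht, hte⟩ := intermediate_value_Icc hab hThc hmem
      have hte' : Th L R n t = 3 / 4 := hte
      have h8 := len1 t ht.1 ht.2 hte'.le
      have h9 := mono_of (f := fun s => Th L R n s - L n / 2 * s)
        (f' := fun s => L n * R (n + 1) s - L n / 2 * 1) ht.2
        ((hThc.mono (Icc_subset_Icc_left ht.1)).sub (by fun_prop))
        (fun s hs => by
          have hs0 : s ∈ Ioo 0 T := ⟨lt_of_le_of_lt (ha.trans ht.1) hs.1, hs.2.trans hbT⟩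
          have e1 : HasDerivAt (fun s => Th L R n s) (L n * R (n + 1) s) s :=
            Pr_deriv (LRc g n) hs0
          exact e1.sub ((hasDerivAt_id s).const_mul (L n / 2)))
        (fun s hs => by
          have h10 := phase2 s (ht.1.trans hs.1.le) hs.2.le (hRt s hs.2.le) (by
            rw [← hte']
            exact Th_mono g n (ha.trans ht.1) hs.1.le (hs.2.trans hbT))
          nlinarith)
      rw [hte'] at h9
      have h10 := hHis.old n le_rfl
      have h11 : L n * (b - t) ≤ 5 / 2 := by nlinarith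
      have h12 : L n * (b - a) = L n * (b - t) + L n * (t - a) := by ring
      linarith
  obtain ⟨r1, r2⟩ := rot b hab le_rfl (hRt b le_rfl)
  refine ⟨hHis, ?_, r1, r2, hR b ⟨hab, le_rfl⟩, ?_⟩
  · rw [le_div_iff₀ (by positivity)]
    rw [le_div_iff₀ (by positivity)] at len
    calc (b - a) * (2 * (dl η (n + 1) * L n)) = L n * (b - a) * (2 * dl η (n + 1)) := by ring
      _ ≤ 1 := len
  · -- the sign
    have habs : ∀ t ∈ Icc a b, (1 - dl η (n + 1) / 100) * R (n + 1) t ≤ |x (n + 1) t| := by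
      intro t ht
      have htI := hsub ht
      have hRp : 0 ≤ R (n + 1) t := g.R0 (n + 1) t htI
      have hkey : R (n + 2) t ^ 2 ≤ dl η (n + 1) / 100 * R (n + 1) t ^ 2 := by
        rcases le_total (Th L R n t) (3 / 4) with hT | hT
        · have h8 := R2t g hU htI (hHt t ht.1 ht.2) hT
          have h9 : (1 : ℝ) ≤ lm (n + 1) := le_trans (by norm_num) (N.lm1 (n + 1))
          have h10 : R (n + 2) t ^ 2 ≤ lm (n + 1) * R (n + 2) t ^ 2 :=
            le_mul_of_one_le_left (sq_nonneg _) h9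
          have h11 : (dl η (n + 1) / 10 ^ 4) ^ 2 ≤ R (n + 1) t ^ 2 := by
            rw [← hc10]
            exact pow_le_pow_left₀ (by positivity) (hR t ht) 2
          calc R (n + 2) t ^ 2 ≤ dl η (n + 1) ^ 3 / 10 ^ 20 := h10.trans h8
            _ ≤ dl η (n + 1) ^ 3 / 10 ^ 10 := by
              apply div_le_div_of_nonneg_left (by positivity) (by norm_num) (by norm_num)
            _ = dl η (n + 1) / 100 * (dl η (n + 1) / 10 ^ 4) ^ 2 := by ring
            _ ≤ _ := mul_le_mul_of_nonneg_left h11 (by positivity)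
        · have h8 := phase2 t ht.1 ht.2 (hRt t ht.2) hT
          have h9 := hGZ (n + 1) t htI
          have h10 := gzs g (n + 1) htI (hHt t ht.1 ht.2).time
          have h11 : Th L R (n + 1) t ≤ cn η (n + 1) :=
            (Th_mono g (n + 1) (ha.trans ht.1) ht.2 hbT).trans h4
          have h12 : dl η (n + 1 + 1) ^ 3 / 10 ^ 20 ≤ dl η (n + 1) / 4000 := by
            rw [N.ds (n + 1)]
            have e : (dl η (n + 1) / 4) ^ 3 / 10 ^ 20 =
              (dl η (n + 1) ^ 2 * (4000 / (64 * 10 ^ 20))) * (dl η (n + 1) / 4000) := by ring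
            rw [e]
            apply mul_le_of_le_one_left (by positivity)
            nlinarith
          have h13 : R (n + 2) t ≤ 3 * (dl η (n + 1) / 4000) := by
            rw [hcd'] at h11
            linarith
          have h14 : R (n + 2) t ^ 2 ≤ (3 * (dl η (n + 1) / 4000)) ^ 2 :=
            pow_le_pow_left₀ (g.R0 (n + 2) t htI) h13 2
          have h15 : (1 / 2 : ℝ) ^ 2 ≤ R (n + 1) t ^ 2 := pow_le_pow_left₀ (by norm_num) h8 2
          have h16 : dl η (n + 1) / 100 * (1 / 2 : ℝ) ^ 2 ≤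
            dl η (n + 1) / 100 * R (n + 1) t ^ 2 := mul_le_mul_of_nonneg_left h15 (by positivity)
          nlinarith
      have h8 := g.Rsq (n + 1) t htI
      have h9 : ((1 - dl η (n + 1) / 100) * R (n + 1) t) ^ 2 ≤ x (n + 1) t ^ 2 := by
        have h10 : R (n + 1) t ^ 2 = x (n + 1) t ^ 2 + R (n + 2) t ^ 2 := h8
        have h11 : 0 ≤ dl η (n + 1) / 100 * (1 - dl η (n + 1) / 100) * R (n + 1) t ^ 2 := by
          have : 0 ≤ 1 - dl η (n + 1) / 100 := by linarith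
          positivity
        nlinarith
      have h10 : 0 ≤ (1 - dl η (n + 1) / 100) * R (n + 1) t :=
        mul_nonneg (by linarith) hRp
      rw [← abs_of_nonneg h10]
      exact sq_le_sq.1 h9
    have hpos : ∀ t ∈ Icc a b, x (n + 1) t ≠ 0 := by
      intro t ht h0
      have h8 := habs t ht
      rw [h0, abs_zero] at h8
      have h9 := hR t ht
      have h10 : 0 < (1 - dl η (n + 1) / 100) * R (n + 1) t :=
        mul_pos (by linarith) (by linarith)
      linarith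
    have hxb : 0 < x (n + 1) b := by
      by_contra hcon
      push Not at hcon
      have hcx : ContinuousOn (x (n + 1)) (Icc a b) := (g.cx (n + 1)).mono hsub
      have hmem : (0 : ℝ) ∈ Icc (x (n + 1) b) (x (n + 1) a) := ⟨hcon, by linarith⟩
      obtain ⟨t, ht, hte⟩ := intermediate_value_Icc' hab hcx hmem
      exact hpos t ht hte
    have := habs b ⟨hab, le_rfl⟩
    rwa [abs_of_pos hxb] at this

/-- **Task STG.** -/
theorem t_STG : S_STG := by
  intro η lm L C ℓ B T x R V g hGZ hU hF hROT n a b ha hab hbT h1 h2 h3 h4 h5 h6 h7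
  have hd := g.nm.d0 (n + 1)
  have hL := Lp g n
  rcases le_or_gt (b - a) (1 / (dl η (n + 1) * L n)) with hH | hH
  · exact stg0 g hGZ hU hF hROT n a b ha hab hbT h1 h2 h3 h4 h5 h6 h7 hH
  · exfalso
    have hp : 0 < 1 / (dl η (n + 1) * L n) := by positivity
    obtain ⟨b', hb'⟩ : ∃ b', b' = a + 1 / (dl η (n + 1) * L n) := ⟨_, rfl⟩
    have hab' : a ≤ b' := by linarith
    have hb'b : b' ≤ b := by linarith
    have h0 : 0 ≤ b' := ha.trans hab'
    have h8 := (stg0 g hGZ hU hF hROT n a b' ha hab' (hb'b.trans_lt hbT) h1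
      (fun i hi => (Th_mono g i h0 hb'b hbT).trans (h2 i hi))
      ((Th_mono g n h0 hb'b hbT).trans h3) ((Th_mono g (n + 1) h0 hb'b hbT).trans h4) h5 h6 h7
      (by rw [hb']; linarith)).2.1
    rw [hb', add_sub_cancel_left] at h8
    have h9 : 1 / (2 * (dl η (n + 1) * L n)) = 1 / (dl η (n + 1) * L n) / 2 := by
      field_simp
    rw [h9] at h8
    linarith

end Pool.Agent.Y297.EJ
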